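import Pool.Agent.Helper1.LIL.MOMof
import Pool.Agent.Helper62.LIL.NBG

/-! Block LIL-MOM: the moments of `SQ`. -/

open MeasureTheory Filter Set
open scoped Real Topology

namespace Pool.Agent.Helper22.LIL

open Pool.Agent.Helper22.GC Pool.Agent.Helper53.OM

/-- MOM: the moments of `SQ`. -/
theorem moment {Q : Finset ℕ} {N m : ℕ} (hQ : Q ⊆ sqf N) (hm : 1 ≤ m) {a b lam μ : ℝ}
    (hab : a ≤ b) (hlam : 0 < lam) (hμ : 0 < μ) :
    ∫ α in a..b, SQ Q N (α * lam) ^ (2 * m) ≤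
      (b - a) * ((2 * m).factorial / μ ^ (2 * m) * Real.exp (μ ^ 2 * ∑ q ∈ Q, bq N q ^ 2))
      + (∑ q ∈ Q, bq N q) ^ (2 * m) * (2 * m * √N + 1) ^ (2 ^ (2 * m)) / lam :=
  moment_of (fun hS c hc _ hB1 hB => norm_bound hS c hc hB1 hB) hQ hm hab hlam hμ

end Pool.Agent.Helper22.LIL
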