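import Pool.Agent.Helper94.LIL.PC
import Pool.Agent.Helper99.LIL.TZ

/-! Block LIL-MOM: the moments of `SQ`. -/

open MeasureTheory Filter Set
open scoped Real Topology

namespace Pool.Agent.Helper22.LIL

open Pool.Agent.Helper22.GC Pool.Agent.Helper53.OM

noncomputable section

/-- the statement of block NBG -/
def MOM_NB : Prop := ∀ {S : Finset ℕ}, (∀ q ∈ S, Squarefree q) → ∀ (c : ℕ → ℤ),
    (∃ q ∈ S, c q ≠ 0) → ∀ {B : ℝ}, 1 ≤ B → ∑ q ∈ S, |(c q : ℝ)| * √(q : ℝ) ≤ B →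
    1 ≤ |∑ q ∈ S, (c q : ℝ) * √(q : ℝ)| * B ^ (2 ^ S.card)

/-- the index set -/
def MOM_P (Q : Finset ℕ) (N : ℕ) : Finset (ℕ × ℕ) :=
  (Q ×ˢ Finset.Icc 1 N).filter (fun t => t.1 * t.2 ^ 2 ≤ N)

/-- the coefficients -/
def MOM_c (t : ℕ × ℕ) : ℝ := rho (t.1 * t.2 ^ 2) * (1 / π)

theorem MOM_c_nonneg (t : ℕ × ℕ) : 0 ≤ MOM_c t := by
  unfold MOM_c
  have := rho_nonneg (t.1 * t.2 ^ 2)
  have := Real.pi_pos
  positivity

theorem MOM_sum (Q : Finset ℕ) (N : ℕ) (f : ℕ × ℕ → ℝ) :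
    ∑ t ∈ MOM_P Q N, f t = ∑ q ∈ Q, ∑ j ∈ js N q, f (q, j) := by
  unfold MOM_P js
  rw [Finset.sum_filter, Finset.sum_product]
  refine Finset.sum_congr rfl fun q _ => ?_
  rw [Finset.sum_filter]

theorem MOM_SQ (Q : Finset ℕ) (N : ℕ) (x : ℝ) :
    SQ Q N x = ∑ t ∈ MOM_P Q N, MOM_c t *
      Real.cos (2 * π * (x * (t.2 * √(t.1 : ℝ))) - 3 * π / 4) := by
  rw [MOM_sum]
  unfold SQ MOM_c
  refine Finset.sum_congr rfl fun q _ => Finset.sum_congr rfl fun j _ => ?_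
  ring

theorem MOM_one_div_pi : 1 / π ≤ 1 := by
  rw [div_le_one Real.pi_pos]
  linarith [Real.pi_gt_three]

theorem MOM_block (Q : Finset ℕ) (N q : ℕ) :
    ∑ t ∈ (MOM_P Q N).filter (fun t => t.1 = q), MOM_c t ≤ bq N q := by
  have h : (MOM_P Q N).filter (fun t => t.1 = q) ⊆ (js N q).image (fun j => (q, j)) := by
    intro t ht
    simp only [MOM_P, Finset.mem_filter, Finset.mem_product] at ht
    simp only [Finset.mem_image, js, Finset.mem_filter]
    refine ⟨t.2, ⟨ht.1.1.2, ?_⟩, ?_⟩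
    · rw [← ht.2]; exact ht.1.2
    · rw [← ht.2]
  refine (Finset.sum_le_sum_of_subset_of_nonneg h fun t _ _ => MOM_c_nonneg t).trans ?_
  rw [Finset.sum_image (fun a _ b _ hab => by simpa using hab)]
  unfold bq
  refine Finset.sum_le_sum fun j _ => ?_
  unfold MOM_c
  have h1 := rho_nonneg (q * j ^ 2)
  have h2 := MOM_one_div_pi
  calc rho (q * j ^ 2) * (1 / π) ≤ rho (q * j ^ 2) * 1 := by gcongr
    _ = _ := mul_one _

theorem MOM_bq_nonneg (N q : ℕ) : 0 ≤ bq N q := Finset.sum_nonneg fun _ _ => rho_nonneg _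

theorem MOM_total (Q : Finset ℕ) (N : ℕ) : ∑ t ∈ MOM_P Q N, MOM_c t ≤ ∑ q ∈ Q, bq N q := by
  rw [MOM_sum]
  refine Finset.sum_le_sum fun q _ => ?_
  unfold bq
  refine Finset.sum_le_sum fun j _ => ?_
  unfold MOM_c
  have h1 := rho_nonneg (q * j ^ 2)
  have h2 := MOM_one_div_pi
  calc rho (q * j ^ 2) * (1 / π) ≤ rho (q * j ^ 2) * 1 := by gcongr
    _ = _ := mul_one _

/-- the oscillating integral -/
theorem MOM_osc (w ψ a b : ℝ) (hw : w ≠ 0) :
    ∫ x in a..b, Real.cos (w * x + ψ) ≤ 2 / |w| := by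
  have h : ∫ x in a..b, Real.cos (w * x + ψ)
      = w⁻¹ * (Real.sin (w * b + ψ) - Real.sin (w * a + ψ)) := by
    rw [intervalIntegral.integral_comp_mul_add (fun x => Real.cos x) hw, integral_cos, smul_eq_mul]
  rw [h]
  have h1 := abs_le.mp (Real.abs_sin_le_one (w * b + ψ))
  have h2 := abs_le.mp (Real.abs_sin_le_one (w * a + ψ))
  calc w⁻¹ * (Real.sin (w * b + ψ) - Real.sin (w * a + ψ))
      ≤ |w⁻¹ * (Real.sin (w * b + ψ) - Real.sin (w * a + ψ))| := le_abs_self _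
    _ = |w|⁻¹ * |Real.sin (w * b + ψ) - Real.sin (w * a + ψ)| := by rw [abs_mul, abs_inv]
    _ ≤ |w|⁻¹ * 2 := by
        gcongr
        rw [abs_le]
        constructor <;> linarith
    _ = 2 / |w| := by ring

/-- the frequency -/
def MOM_nu {n : ℕ} (t : Fin n → ℕ × ℕ) (s : Fin n → Bool) : ℝ :=
  ∑ i, (sg (s i) : ℝ) * ((t i).2 * √((t i).1 : ℝ))

/-- the coefficients of the linear form -/
def MOM_cc {n : ℕ} (t : Fin n → ℕ × ℕ) (s : Fin n → Bool) (q : ℕ) : ℤ :=
  ∑ i, (if (t i).1 = q then sg (s i) * ((t i).2 : ℤ) else 0)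

theorem MOM_nu_eq {n : ℕ} (t : Fin n → ℕ × ℕ) (s : Fin n → Bool) (S : Finset ℕ)
    (hS : ∀ i, (t i).1 ∈ S) :
    MOM_nu t s = ∑ q ∈ S, (MOM_cc t s q : ℝ) * √(q : ℝ) := by
  unfold MOM_nu MOM_cc
  push_cast
  simp only [Finset.sum_mul]
  rw [Finset.sum_comm]
  refine Finset.sum_congr rfl fun i _ => ?_
  rw [Finset.sum_eq_single_of_mem (t i).1 (hS i)]
  · simp; ring
  · intro q _ hq
    rw [if_neg (Ne.symm hq), zero_mul]

theorem MOM_abs_sg (s : Bool) : |(sg s : ℝ)| = 1 := by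
  unfold sg; split_ifs <;> simp

theorem MOM_cc_abs {n : ℕ} (t : Fin n → ℕ × ℕ) (s : Fin n → Bool) (S : Finset ℕ)
    (hS : ∀ i, (t i).1 ∈ S) :
    ∑ q ∈ S, |(MOM_cc t s q : ℝ)| * √(q : ℝ) ≤ ∑ i, ((t i).2 * √((t i).1 : ℝ)) := by
  have h : ∀ q ∈ S, |(MOM_cc t s q : ℝ)| * √(q : ℝ)
      ≤ ∑ i, (if (t i).1 = q then ((t i).2 : ℝ) * √((t i).1 : ℝ) else 0) := by
    intro q _
    unfold MOM_cc
    push_cast
    calc |∑ i, (if (t i).1 = q then (sg (s i) : ℝ) * ((t i).2 : ℝ) else 0)| * √(q : ℝ)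
        ≤ (∑ i, |(if (t i).1 = q then (sg (s i) : ℝ) * ((t i).2 : ℝ) else 0)|) * √(q : ℝ) := by
          gcongr
          exact Finset.abs_sum_le_sum_abs _ _
      _ = ∑ i, (if (t i).1 = q then ((t i).2 : ℝ) * √((t i).1 : ℝ) else 0) := by
          rw [Finset.sum_mul]
          refine Finset.sum_congr rfl fun i _ => ?_
          split_ifs with h
          · rw [abs_mul, MOM_abs_sg, one_mul, abs_of_nonneg (by positivity), h]
          · simp
  refine (Finset.sum_le_sum h).trans ?_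
  rw [Finset.sum_comm]
  refine Finset.sum_le_sum fun i _ => ?_
  rw [Finset.sum_ite_eq]
  rw [if_pos (hS i)]

/-- lower bound for a nonzero frequency -/
theorem MOM_nu_lower (hNB : MOM_NB) {Q : Finset ℕ} {N n : ℕ} (hQ : Q ⊆ sqf N) (t : Fin n → ℕ × ℕ)
    (ht : ∀ i, t i ∈ MOM_P Q N) (s : Fin n → Bool) (hs : ¬ Rel t s) :
    1 ≤ |MOM_nu t s| * (n * √N + 1) ^ (2 ^ n) := by
  classical
  set S : Finset ℕ := Finset.univ.image (fun i => (t i).1) with hSdef
  have hS : ∀ i, (t i).1 ∈ S := fun i => Finset.mem_image_of_mem _ (Finset.mem_univ i)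
  have hmem : ∀ i, (t i).1 ∈ Q ∧ (t i).2 ∈ Finset.Icc 1 N ∧ (t i).1 * (t i).2 ^ 2 ≤ N := by
    intro i
    have := ht i
    simp only [MOM_P, Finset.mem_filter, Finset.mem_product] at this
    exact ⟨this.1.1, this.1.2, this.2⟩
  have hsq : ∀ q ∈ S, Squarefree q := by
    intro q hq
    obtain ⟨i, _, rfl⟩ := Finset.mem_image.mp hq
    have := hQ (hmem i).1
    unfold sqf at this
    exact (Finset.mem_filter.mp this).2
  have hne : ∃ q ∈ S, MOM_cc t s q ≠ 0 := by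
    by_contra hcon
    push Not at hcon
    apply hs
    intro q
    by_cases hq : q ∈ S
    · exact hcon q hq
    · apply Finset.sum_eq_zero
      intro i _
      rw [if_neg]
      intro h
      exact hq (h ▸ hS i)
  have hB : ∑ q ∈ S, |(MOM_cc t s q : ℝ)| * √(q : ℝ) ≤ n * √N + 1 := by
    refine (MOM_cc_abs t s S hS).trans ?_
    have : ∀ i ∈ Finset.univ, ((t i).2 : ℝ) * √((t i).1 : ℝ) ≤ √(N : ℝ) := by
      intro i _
      have h1 := (hmem i).2.2
      have h2 : (((t i).1 * (t i).2 ^ 2 : ℕ) : ℝ) ≤ N := by exact_mod_cast h1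
      apply Real.le_sqrt_of_sq_le
      rw [mul_pow, Real.sq_sqrt (by positivity)]
      push_cast at h2
      linarith
    calc ∑ i, ((t i).2 : ℝ) * √((t i).1 : ℝ) ≤ ∑ _i : Fin n, √(N : ℝ) := Finset.sum_le_sum this
      _ = n * √N := by simp
      _ ≤ n * √N + 1 := by linarith
  have hB1 : (1 : ℝ) ≤ n * √N + 1 := by
    have : (0 : ℝ) ≤ n * √N := by positivity
    linarith
  have h := hNB hsq (MOM_cc t s) hne hB1 hB
  rw [← MOM_nu_eq t s S hS] at h
  refine h.trans ?_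
  gcongr
  · norm_num
  · calc S.card ≤ (Finset.univ : Finset (Fin n)).card := Finset.card_image_le
      _ = n := by simp

/-- the integral of one term -/
theorem MOM_term (hNB : MOM_NB) {Q : Finset ℕ} {N n : ℕ} (hQ : Q ⊆ sqf N) (t : Fin n → ℕ × ℕ)
    (ht : ∀ i, t i ∈ MOM_P Q N) {a b lam : ℝ} (hab : a ≤ b) (hlam : 0 < lam) (s : Fin n → Bool)
    [Decidable (Rel t s)] :
    ∫ α in a..b, Real.cos (∑ i, (sg (s i) : ℝ) *
        (2 * π * ((α * lam) * ((t i).2 * √((t i).1 : ℝ))) - 3 * π / 4))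
      ≤ (if Rel t s then (b - a) else 0) + (n * √N + 1) ^ (2 ^ n) / lam := by
  have hBpos : (0 : ℝ) ≤ (n * √N + 1) ^ (2 ^ n) / lam := by positivity
  have hrew : ∀ α : ℝ, ∑ i, (sg (s i) : ℝ) *
        (2 * π * ((α * lam) * ((t i).2 * √((t i).1 : ℝ))) - 3 * π / 4)
      = (2 * π * lam * MOM_nu t s) * α + (-(3 * π / 4) * ∑ i, (sg (s i) : ℝ)) := by
    intro α
    unfold MOM_nu
    rw [Finset.mul_sum, Finset.sum_mul, Finset.mul_sum, ← Finset.sum_add_distrib]
    refine Finset.sum_congr rfl fun i _ => ?_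
    ring
  simp only [hrew]
  by_cases hs : Rel t s
  · rw [if_pos hs]
    calc ∫ α in a..b, Real.cos ((2 * π * lam * MOM_nu t s) * α
          + (-(3 * π / 4) * ∑ i, (sg (s i) : ℝ)))
        ≤ ∫ _α in a..b, (1 : ℝ) := by
          apply intervalIntegral.integral_mono_on hab
          · exact Continuous.intervalIntegrable (by fun_prop) _ _
          · exact intervalIntegrable_const
          · intro x _; exact Real.cos_le_one _
      _ = b - a := by simp
      _ ≤ _ := by linarith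
  · rw [if_neg hs, zero_add]
    have hlow := MOM_nu_lower hNB hQ t ht s hs
    have hBp : (0 : ℝ) < (n * √N + 1) ^ (2 ^ n) := by positivity
    have hnu : 0 < |MOM_nu t s| := by
      by_contra hcon
      push Not at hcon
      nlinarith
    have hw : 2 * π * lam * MOM_nu t s ≠ 0 := by
      have : MOM_nu t s ≠ 0 := abs_pos.mp hnu
      have := Real.pi_pos
      positivity
    refine (MOM_osc _ _ _ _ hw).trans ?_
    rw [abs_mul, abs_of_pos (by have := Real.pi_pos; positivity : 0 < 2 * π * lam)]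
    have hpi := Real.pi_gt_three
    rw [div_le_div_iff₀ (by positivity) hlam]
    have h1 : 2 * lam * 1 ≤ 2 * lam * (|MOM_nu t s| * (n * √N + 1) ^ (2 ^ n)) := by gcongr
    have h2 : 0 ≤ lam * (|MOM_nu t s| * (n * √N + 1) ^ (2 ^ n)) := by positivity
    nlinarith

/-- MOM: the moments of `SQ` (from the statement of NBG). -/
theorem moment_of (hNB : MOM_NB) {Q : Finset ℕ} {N m : ℕ} (hQ : Q ⊆ sqf N) (hm : 1 ≤ m) {a b lam μ : ℝ}
    (hab : a ≤ b) (hlam : 0 < lam) (hμ : 0 < μ) :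
    ∫ α in a..b, SQ Q N (α * lam) ^ (2 * m) ≤
      (b - a) * ((2 * m).factorial / μ ^ (2 * m) * Real.exp (μ ^ 2 * ∑ q ∈ Q, bq N q ^ 2))
      + (∑ q ∈ Q, bq N q) ^ (2 * m) * (2 * m * √N + 1) ^ (2 ^ (2 * m)) / lam := by
  classical
  set P := MOM_P Q N with hPdef
  set n := 2 * m with hn
  set T : Finset (Fin n → ℕ × ℕ) := Fintype.piFinset (fun _ => P) with hT
  have hexp : ∀ α : ℝ, SQ Q N (α * lam) ^ n
      = ∑ t ∈ T, (∏ i, MOM_c (t i)) * ((1 / 2) ^ n * ∑ s : Fin n → Bool,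
        Real.cos (∑ i, (sg (s i) : ℝ) *
          (2 * π * ((α * lam) * ((t i).2 * √((t i).1 : ℝ))) - 3 * π / 4))) := by
    intro α
    rw [MOM_SQ, ← hPdef]
    have h := Finset.prod_univ_sum (fun _ : Fin n => P) (fun _ t => MOM_c t *
      Real.cos (2 * π * ((α * lam) * (t.2 * √(t.1 : ℝ))) - 3 * π / 4))
    rw [Finset.prod_const, Finset.card_univ, Fintype.card_fin] at h
    rw [h]
    refine Finset.sum_congr rfl fun t _ => ?_
    rw [Finset.prod_mul_distrib, prod_cos]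
  have hci : ∀ (t : Fin n → ℕ × ℕ) (s : Fin n → Bool), IntervalIntegrable
      (fun α => Real.cos (∑ i, (sg (s i) : ℝ) *
          (2 * π * ((α * lam) * ((t i).2 * √((t i).1 : ℝ))) - 3 * π / 4))) volume a b := by
    intro t s
    exact Continuous.intervalIntegrable (by fun_prop) _ _
  have hint : ∫ α in a..b, SQ Q N (α * lam) ^ n
      = ∑ t ∈ T, (∏ i, MOM_c (t i)) * ((1 / 2) ^ n * ∑ s : Fin n → Bool,
        ∫ α in a..b, Real.cos (∑ i, (sg (s i) : ℝ) *
          (2 * π * ((α * lam) * ((t i).2 * √((t i).1 : ℝ))) - 3 * π / 4))) := by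
    simp only [hexp]
    rw [intervalIntegral.integral_finsetSum]
    · refine Finset.sum_congr rfl fun t _ => ?_
      rw [intervalIntegral.integral_const_mul, intervalIntegral.integral_const_mul,
        intervalIntegral.integral_finsetSum (fun s _ => hci t s)]
    · intro t _
      exact Continuous.intervalIntegrable (by fun_prop) _ _
  rw [hint]
  set B : ℝ := (n * √N + 1) ^ (2 ^ n) / lam with hB
  have hB0 : 0 ≤ B := by positivity
  have hcpos : ∀ t : Fin n → ℕ × ℕ, 0 ≤ ∏ i, MOM_c (t i) := fun t =>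
    Finset.prod_nonneg fun i _ => MOM_c_nonneg _
  have hterm : ∀ t ∈ T, (∏ i, MOM_c (t i)) * ((1 / 2) ^ n * ∑ s : Fin n → Bool,
        ∫ α in a..b, Real.cos (∑ i, (sg (s i) : ℝ) *
          (2 * π * ((α * lam) * ((t i).2 * √((t i).1 : ℝ))) - 3 * π / 4)))
      ≤ (b - a) * ((∏ i, MOM_c (t i)) * ((1 / 2) ^ n * (relCount t : ℝ)))
        + (∏ i, MOM_c (t i)) * B := by
    intro t ht
    have ht' : ∀ i, t i ∈ MOM_P Q N := fun i => by
      have := Fintype.mem_piFinset.mp ht i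
      exact this
    have h1 : ∑ s : Fin n → Bool, ∫ α in a..b, Real.cos (∑ i, (sg (s i) : ℝ) *
          (2 * π * ((α * lam) * ((t i).2 * √((t i).1 : ℝ))) - 3 * π / 4))
        ≤ (relCount t : ℝ) * (b - a) + 2 ^ n * B := by
      refine (Finset.sum_le_sum fun s _ => MOM_term hNB hQ t ht' hab hlam s).trans ?_
      rw [Finset.sum_add_distrib, Finset.sum_const, Finset.card_univ, Fintype.card_fun,
        Fintype.card_bool, Fintype.card_fin, ← Finset.sum_filter, Finset.sum_const]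
      unfold relCount
      simp only [nsmul_eq_mul]
      push_cast
      rw [hB]
    calc (∏ i, MOM_c (t i)) * ((1 / 2) ^ n * ∑ s : Fin n → Bool,
        ∫ α in a..b, Real.cos (∑ i, (sg (s i) : ℝ) *
          (2 * π * ((α * lam) * ((t i).2 * √((t i).1 : ℝ))) - 3 * π / 4)))
        ≤ (∏ i, MOM_c (t i)) * ((1 / 2) ^ n * ((relCount t : ℝ) * (b - a) + 2 ^ n * B)) := by
          have := hcpos t
          gcongr
      _ = _ := by
          have : ((1 : ℝ) / 2) ^ n * 2 ^ n = 1 := by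
            rw [← mul_pow]; norm_num
          linear_combination ((∏ i, MOM_c (t i)) * B) * this
  refine (Finset.sum_le_sum hterm).trans ?_
  rw [Finset.sum_add_distrib, ← Finset.mul_sum, ← Finset.sum_mul]
  have hPne : ∀ t ∈ P, t.2 ≠ 0 := by
    intro t ht
    simp only [hPdef, MOM_P, Finset.mem_filter, Finset.mem_product, Finset.mem_Icc] at ht
    omega
  have h1 := torus_moment P hPne MOM_c (fun t _ => MOM_c_nonneg t) m hμ
  rw [← hn] at h1
  have h2 : ∑ q ∈ P.image Prod.fst, (∑ t ∈ P.filter (fun t => t.1 = q), MOM_c t) ^ 2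
      ≤ ∑ q ∈ Q, bq N q ^ 2 := by
    have hsub : P.image Prod.fst ⊆ Q := by
      intro q hq
      obtain ⟨t, ht, rfl⟩ := Finset.mem_image.mp hq
      simp only [hPdef, MOM_P, Finset.mem_filter, Finset.mem_product] at ht
      exact ht.1.1
    refine le_trans (Finset.sum_le_sum fun q _ => ?_)
      (Finset.sum_le_sum_of_subset_of_nonneg hsub fun q _ _ => sq_nonneg _)
    have h0 : 0 ≤ ∑ t ∈ P.filter (fun t => t.1 = q), MOM_c t :=
      Finset.sum_nonneg fun t _ => MOM_c_nonneg t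
    exact pow_le_pow_left₀ h0 (MOM_block Q N q) 2
  have h3 : ∑ t ∈ T, ∏ i, MOM_c (t i) = (∑ t ∈ P, MOM_c t) ^ n := by
    have h := Finset.prod_univ_sum (fun _ : Fin n => P) (fun _ t => MOM_c t)
    rw [Finset.prod_const, Finset.card_univ, Fintype.card_fin] at h
    rw [h]
  rw [h3]
  have h4 : (∑ t ∈ P, MOM_c t) ^ n ≤ (∑ q ∈ Q, bq N q) ^ n :=
    pow_le_pow_left₀ (Finset.sum_nonneg fun t _ => MOM_c_nonneg t) (MOM_total Q N) n
  have hba : 0 ≤ b - a := sub_nonneg.mpr hab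
  have h5 : (∑ t ∈ P, MOM_c t) ^ n * B ≤ (∑ q ∈ Q, bq N q) ^ n * (2 * m * √N + 1) ^ (2 ^ n) / lam := by
    rw [hB, hn]
    push_cast
    rw [mul_div_assoc]
    rw [hn] at h4
    gcongr
  have h6 : ∑ t ∈ T, (∏ i, MOM_c (t i)) * ((1 / 2) ^ n * (relCount t : ℝ))
      ≤ n.factorial / μ ^ n * Real.exp (μ ^ 2 * ∑ q ∈ Q, bq N q ^ 2) := by
    refine h1.trans ?_
    gcongr
  have h7 := mul_le_mul_of_nonneg_left h6 hba
  linarith

end

end Pool.Agent.Helper22.LIL
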